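import Pool.Agent.Helper87.SC.Theory

/-!
# MP_fc0e0d_gt: the question is equivalent to the cabling conjecture, knot by knot
-/

set_option autoImplicit false

namespace Pool.Agent.Results.MP_fc0e0d_gt.CablingEquivalence

open Pool.Agent.Helper87.SC

/-- The slope of a non-meridional essential planar surface which is no disc is a reducing slope;
hence the question for a knot is equivalent to the cabling conjecture for this knot, and it has a
positive answer for every knot for which the cabling conjecture is known. -/
theorem result (T : KnotTheory) :
    (∀ (K : T.Knot) (P : T.Surface K), 2 ≤ T.comps P → T.Reducible (T.surg K (T.slope P))) ∧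
    (∀ K : T.Knot, T.Strong K ↔ T.Cabling K) ∧
    ∀ K : T.Knot, (T.Satellite K ∨ T.StronglyInvertible K ∨ T.genus K = 1 ∨ T.bridge K ≤ 5) →
      T.Strong K :=
  ⟨fun _ P hP => KnotTheory.reducible P hP, KnotTheory.strong_iff_cabling,
    KnotTheory.strong_of_known⟩

end Pool.Agent.Results.MP_fc0e0d_gt.CablingEquivalence
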