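import Pool.Agent.WTT.Slopes

/-!
Planar surfaces against one or two essential surface systems without long product discs.
-/

namespace Pool.Agent.Results.MP_fc0e0d_gt.EssentialSurfaces

open Pool.Agent.WTT

universe u v₁ v₂

theorem result {G : Type u} [Group G] (μ lam : G) (r e : ℤ) (m : ℕ) (hm : 2 ≤ m)
    (ρ : FreeGroup (Fin m) →* G) (hρ : PlanarMap (μ ^ r * lam ^ e) m ρ) :
    -- one surface system
    (∀ (V : Type v₁) [MulAction G V] (T : SimpleGraph V) (L : ℤ → V) (p b : ℤ) (q f : ℕ),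
      SurfaceSystem T L μ lam p b q f →
      (p * e - r * b).natAbs * q ≤ cap G L (m + 1) * f) ∧
    -- two surface systems
    (∀ (V₁ : Type v₁) (V₂ : Type v₂) [MulAction G V₁] [MulAction G V₂]
      (T₁ : SimpleGraph V₁) (L₁ : ℤ → V₁) (T₂ : SimpleGraph V₂) (L₂ : ℤ → V₂)
      (p₁ b₁ p₂ b₂ : ℤ) (q₁ f₁ q₂ f₂ : ℕ),
      SurfaceSystem T₁ L₁ μ lam p₁ b₁ q₁ f₁ → SurfaceSystem T₂ L₂ μ lam p₂ b₂ q₂ f₂ →
      e.natAbs * (p₁ * b₂ - p₂ * b₁).natAbs * (q₁ * q₂) ≤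
        b₂.natAbs * q₂ * (cap G L₁ (m + 1) * f₁) + b₁.natAbs * q₁ * (cap G L₂ (m + 1) * f₂)) := by
  refine ⟨?_, ?_⟩
  · intro V _ T L p b q f h
    exact one_slope41 h r e m hm ρ hρ
  · intro V₁ V₂ _ _ T₁ L₁ T₂ L₂ p₁ b₁ p₂ b₂ q₁ f₁ q₂ f₂ h₁ h₂
    exact two_slopes41 h₁ h₂ r e m hm ρ hρ

end Pool.Agent.Results.MP_fc0e0d_gt.EssentialSurfaces
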