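import Pool.Agent.Helper23.FT.Theory

/-!
# MP_fc0e0d_gt: the genus and the slope are bounded by the slice genus and the Floer thickness

The first part is a theorem on the numerical invariants of a knot which come from its knot Floer
complex. The second part is its consequence for essential planar surfaces.
-/

set_option autoImplicit false

namespace Pool.Agent.Results.MP_fc0e0d_gt.FloerThickness

open Pool.Agent.Helper23.FT

/-- If the exterior of a knot contains a non-meridional essential planar surface which is no disc then
the genus is at most `2 (g4 + 1) (th + 2 g4 + 1)`, where `g4` is the slice genus and `th` is the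
Floer thickness, and the slope is bounded too. -/
theorem result :
    (∀ (D : FloerData) (a b : ℕ), D.Splits a b →
      (D.genus : ℤ) ≤ 2 * (D.g4 + 1) * (D.th + 2 * D.g4 + 1) ∧
      (D.g4 < D.genus → ((a * b : ℕ) : ℤ) ≤ 2 * D.th + 4 * D.g4 + 2)) ∧
    ∀ (T : FloerTheory) (K : T.Knot) (P : T.Surface K), 2 ≤ T.comps P →
      (T.genus K : ℤ) ≤ 2 * (T.g4 K + 1) * (T.th K + 2 * T.g4 K + 1) ∧
      (3 ≤ T.comps P ∨ T.g4 K < T.genus K → |T.slope P| ≤ 2 * T.th K + 4 * T.g4 K + 2) := by
  refine ⟨fun D a b h => ⟨h.genus_le, fun hg => (h.bounds hg).1⟩,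
    fun T K P hP => ⟨FloerTheory.genus_le P hP, ?_⟩⟩
  rintro (h | h)
  · exact FloerTheory.slope_le' P h
  · exact FloerTheory.slope_le P hP h

end Pool.Agent.Results.MP_fc0e0d_gt.FloerThickness
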