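import Pool.Agent.WTT.Conway

/-!
Planar surfaces against meridional surface systems.
-/

namespace Pool.Agent.Results.MP_fc0e0d_gt.MeridionalSurfaces

open Pool.Agent.WTT

theorem result {G V : Type*} [Group G] [MulAction G V] (T : SimpleGraph V) (L : ℤ → V)
    (μ lam : G) (q : ℕ) (hK : SurfaceTree T L μ lam q) (a b : ℤ) (hb : b ≠ 0) (m : ℕ) (hm : 2 ≤ m)
    (ρ : FreeGroup (Fin m) →* G) (hρ : PlanarMap (μ ^ a * lam ^ b) m ρ) :
    -- any angle system
    (∀ θ : V → V → V → ℝ, AngleSystem L (Subgroup.closure {μ, lam}) θ →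
      ((m : ℝ) + 1) * (|(b : ℝ)| * defect L θ q) ≤ 2 * (m - 1)) ∧
    -- lengths of the cycles through each corner
    (∀ τ : ℤ → ℝ, (∀ k, 0 ≤ τ k) →
      (∀ (k : ℤ) (r : ℕ) [NeZero r] (x : ZMod r → V) (g : ZMod r → G),
        CornerCycle L (Subgroup.closure {μ, lam}) r (L k) x g → x 0 = L (k - 1) →
        x 1 = L (k + 1) → 2 ≤ r * τ k) →
      ((m : ℝ) + 1) * (|(b : ℝ)| * ∑ k ∈ Finset.range q, (1 - τ k)) ≤ 2 * (m - 1)) ∧
    -- isolated corners
    (∀ S : Finset ℕ, S ⊆ Finset.range q →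
      (∀ k ∈ S, Isolated L (Subgroup.closure {μ, lam}) k) →
      ((m : ℝ) + 1) * (|(b : ℝ)| * S.card) ≤ 6 * (m - 1)) ∧
    -- one Conway sphere
    (q = 4 → ¬ ConwaySphere L (Subgroup.closure {μ, lam})) :=
  ⟨fun _ hθ => final hK hθ a b hb m hm ρ hρ,
    fun _ hτ hc => girth_bound hK hτ hc a b hb m hm ρ hρ,
    fun S hS hI => isolated_bound hK a b hb m hm ρ hρ S hS hI,
    fun hq hS => by subst hq; exact conway_sphere hK hS a b hb m hm ρ hρ⟩

end Pool.Agent.Results.MP_fc0e0d_gt.MeridionalSurfaces
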